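import Pool.Agent.H.MP_afaa81_pr.C

namespace Pool.Agent.Results.MP_afaa81_pr.Yes

open Matrix Finset Filter Topology Pool.Agent.H.MP_afaa81_pr

/-- The averaged Frobenius norm. -/
noncomputable def fbar {m n : ℕ} (A : Matrix (Fin m) (Fin n) ℝ) : ℝ := √((∑ i, ∑ j, A i j ^ 2) / (m * n))

/-- The sequence `P` admits stable recovery of low rank matrices. -/
def Stable {m n : ℕ → ℕ} (P : ∀ k, Matrix (Fin (m k)) (Fin (n k)) ℝ) : Prop :=
  ∀ K : ℕ, 0 < K → ∀ L > (0 : ℝ), ∀ ε > (0 : ℝ), ∃ δ > (0 : ℝ), ∀ A B : ∀ k, Matrix (Fin (m k)) (Fin (n k)) ℝ,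
    (∀ k, (A k).rank ≤ K ∧ (B k).rank ≤ K ∧ ∀ i j, |A k i j| ≤ L ∧ |B k i j| ≤ L) →
    limsup (fun k => fbar ((A k - B k) ⊙ P k)) atTop ≤ δ → limsup (fun k => fbar (A k - B k)) atTop ≤ ε

theorem result {m n : ℕ → ℕ} (hm : Tendsto m atTop atTop) (hn : Tendsto n atTop atTop)
    (P : ∀ k, Matrix (Fin (m k)) (Fin (n k)) ℝ) (hP : ∀ k i j, P k i j = 0 ∨ P k i j = 1) (hs : Stable P)
    (A : ∀ k, Matrix (Fin (m k)) (Fin (n k)) ℝ) (K : ℕ) (L : ℝ) (hA : ∀ k, (A k).rank ≤ K ∧ ∀ i j, |A k i j| ≤ L)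
    (B : ∀ k, Matrix (Fin (m k)) (Fin (n k)) ℝ)
    (hB : ∀ k, B k ⊙ P k = A k ⊙ P k ∧ ∀ B', B' ⊙ P k = A k ⊙ P k → nuc (B k) ≤ nuc B') :
    Tendsto (fun k => fbar (B k - A k)) atTop (𝓝 0) := by
  classical
  have h0 : ∀ᶠ q in atTop, 0 < m q ∧ 0 < n q := (hm.eventually_gt_atTop 0).and (hn.eventually_gt_atTop 0)
  have h1 := @bdd _ _ (fun q p => P q p.1 p.2 = 1) _ h0 fun c c0 => by
    obtain ⟨δ, δ0, hδ⟩ := hs 1 one_pos 1 one_pos (c / 2) (by positivity)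
    refine ⟨δ ^ 2, by positivity, by_contra fun h => ?_⟩
    have h2 : ∀ q, ∃ (S : Finset (Fin (m q))) (T : Finset (Fin (n q))), (#{p ∈ S ×ˢ T | P q p.1 p.2 = 1} : ℝ) ≤
        δ ^ 2 * (m q * n q) ∧ ((¬ ∀ (S : Finset (Fin (m q))) (T : Finset (Fin (n q))), c * m q ≤ #S → c * n q ≤ #T →
          δ ^ 2 * (m q * n q) < #{p ∈ S ×ˢ T | P q p.1 p.2 = 1}) → c * m q ≤ #S ∧ c * n q ≤ #T) := fun q => by
      by_cases e : ∀ (S : Finset (Fin (m q))) (T : Finset (Fin (n q))), c * m q ≤ #S → c * n q ≤ #T →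
          δ ^ 2 * (m q * n q) < #{p ∈ S ×ˢ T | P q p.1 p.2 = 1}
      · exact ⟨∅, ∅, by simpa using by positivity, fun a => (a e).elim⟩
      · push Not at e
        obtain ⟨S, T, a, b, d⟩ := e
        exact ⟨S, T, d, fun _ => ⟨a, b⟩⟩
    choose S T s1 s2 using h2
    have h3 : ∀ q, fbar (vecMulVec (fun i => if i ∈ S q then 1 else 0) (fun j => if j ∈ T q then 1 else 0) - 0) =
        √(#(S q) * #(T q) / (m q * n q)) := fun q => by
      simp [fbar, vecMulVec_apply, mul_comm]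
    have h4 := hδ (fun q => vecMulVec (fun i => if i ∈ S q then 1 else 0) fun j => if j ∈ T q then 1 else 0) 0
      (fun q => ⟨rank_vecMulVec_le _ _, by simp, fun i j => by rw [vecMulVec_apply]; split_ifs <;> simp⟩)
      (limsup_le_of_le (isCoboundedUnder_le_of_le _ fun _ => Real.sqrt_nonneg _) (.of_forall fun q =>
        Real.sqrt_le_iff.2 ⟨δ0.le, div_le_of_le_mul₀ (by positivity) (by positivity) (le_trans (le_of_eq ?_) (s1 q))⟩))
    · refine h4.not_gt ((half_lt_self c0).trans_le (le_limsup_of_frequently_le (((not_eventually.1 h).and_eventually h0).mono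
        fun q a => ?_) (isBoundedUnder_of ⟨1, fun q => ?_⟩)))
      · have := a.2.1
        have := a.2.2
        rw [Pi.zero_apply, h3]
        refine Real.le_sqrt_of_sq_le ((le_div_iff₀ (by positivity)).2 ?_)
        linarith [mul_le_mul (s2 q a.1).1 (s2 q a.1).2 (by positivity) (by positivity)]
      · rw [Pi.zero_apply, h3]
        exact Real.sqrt_le_one.2 (div_le_one_of_le₀ (by
          gcongr <;> exact (card_le_univ _).trans_eq (Fintype.card_fin _)) (by positivity))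
    · rw [← sum_boole, ← sum_ite_mem_eq (S q ×ˢ T q), Fintype.sum_prod_type]
      refine sum_congr rfl fun i _ => sum_congr rfl fun j _ => ?_
      rcases hP q i j with e | e <;> by_cases a : i ∈ S q <;> by_cases b : j ∈ T q <;> simp [vecMulVec_apply, e, a, b]
  refine tendsto_order.2 ⟨fun a h => .of_forall fun _ => h.trans_le (Real.sqrt_nonneg _), fun ε ε0 => ?_⟩
  obtain ⟨τ, τ0, τ1, τ2⟩ : ∃ τ : ℝ, 0 < τ ∧ τ ≤ 1 ∧ (8 * (K + 1 : ℕ) + 4) * (|L| + 1) ^ 2 * τ ≤ ε ^ 2 / 3 :=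
    ⟨min 1 (ε ^ 2 / 3 / ((8 * (K + 1 : ℕ) + 4) * (|L| + 1) ^ 2)), by positivity, min_le_left _ _,
      (le_div_iff₀' (by positivity)).1 (min_le_right _ _)⟩
  filter_upwards [h0, @h1 (2 * (√(K + 1 : ℕ) * (|L| + 1))) (ε ^ 2 / 3) (√(K + 1 : ℕ) * (|L| + 1) / τ ^ 2 + (|L| + 1))
    (by positivity) (by positivity)] with q a b
  obtain ⟨D, d1, d2, d3, d4⟩ := trunc (A q) (B q) (fun p => P q p.1 p.2 = 1) ((hA q).1.trans K.le_succ) (L := |L| + 1)
    (fun i j => by linarith [(hA q).2 i j, le_abs_self L]) (by positivity) K.succ_pos τ0 τ1 (by simpa using a.1)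
    (by simpa using a.2) (fun i j e => by simpa [show P q i j = 1 from e] using congrFun₂ (hB q).1 i j) fun B' e =>
      (hB q).2 B' (Matrix.ext fun i j => by rcases hP q i j with x | x <;> simp [x, e i j])
  simp only [Fintype.card_fin] at d1 d4
  have h2 : (0 : ℝ) < m q * n q := by have := a.1; have := a.2; positivity
  refine (Real.sqrt_lt' ε0).2 ((div_lt_iff₀ h2).2 (d4.trans_lt ?_))
  nlinarith [b D d1 d2 d3, mul_le_mul_of_nonneg_right τ2 h2.le, mul_pos (pow_pos ε0 2) h2]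

end Pool.Agent.Results.MP_afaa81_pr.Yes
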